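import Mathlib
import Pool.Agent.W_MP_87a692_al.Defs
import Pool.Agent.W_MP_87a692_al.Final

namespace Pool.Agent.Results.MP_87a692_al.DefiniteRootSubspaces

open scoped Quaternion Matrix
open Pool.Agent.W_MP_87a692_al

/-- Let `ℓ ≥ 2`. If a system obeying (B) is stably bounded, then every root subspace of its
block companion matrix `C` is `(G, φ)`-definite. -/
theorem result {n : ℕ} (ℓ : ℕ) (hℓ : 2 ≤ ℓ) (φ : ℍ[ℝ] → ℍ[ℝ]) (hφ : NonstandardInvolution φ)
    (A : ℕ → Matrix (Fin n) (Fin n) ℍ[ℝ]) (hA : HypB φ ℓ A) (hs : StablyBounded φ ℓ A)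
    (α : ℍ[ℝ]) (hα : IsEigenvalue (companion ℓ A) α) :
    PhiDefinite φ (formG ℓ A) (rootSubspace (ℓ * n) (companion ℓ A) α) :=
  root_definite hφ hℓ hA hs hα (ℓ * n)

end Pool.Agent.Results.MP_87a692_al.DefiniteRootSubspaces
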